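import Pool.Agent.L0h33.LD.Chain

/-!
# Every proper inclusion between classes of bounded nondeterminism contains every countable order

`NPg g` is the class `NP_g`: polynomial time with `O(g (n))` guessed bits, that is, with at most
`g (n)` nondeterministic steps (each with a bounded number of choices).

* `P ≠ NP` if and only if for every `m ≥ 1` and every countable partial order `I` there are functions
  `γ i ≤ n ^ (1 / m)` with `NP_{γ i} ⊆ NP_{γ j}` if `i ≤ j`, while otherwise `NP_{γ i}` contains a
  language which is not even polynomial-time Turing reducible to a language in `NP_{γ j}`. All these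
  classes are different from `P`, and none of them contains a language which is hard for `NP` under
  Turing reductions.
* If `f ≤ g` are nice functions (for example two powers of `n`) and `NP_f ≠ NP_g`, then every
  countable partial order embeds into the classes between `NP_f` and `NP_g`.
* If two consecutive classes `NP_{n^a} ⊆ NP_{n^(a+1)}` of the chain are equal, then all later ones
  and `NP` are equal to them. So the proper inclusions of the chain come first.
-/

set_option autoImplicit false

namespace Pool.Agent.Results.MP_cd574d_lc.CountableOrders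

open Pool.Agent.NPC Pool.Agent.L0h33.LD
open Pool.Agent.H620R2.Gauge (IsP)
open Pool.Agent.Y600.FB (chi)

theorem result :
    ((∃ L, InNP L ∧ ¬ InP L) ↔ ∀ (m : ℕ) (I : Type) [Countable I] [PartialOrder I], 1 ≤ m →
      ∃ (γ : I → ℕ → ℕ) (L : I → Set (List Bool)),
        (∀ i, Nice (γ i) ∧ (∀ n, γ i n ^ m ≤ n) ∧ NPg (γ i) (L i) ∧ ¬ InP (L i) ∧
          ∃ L', InNP L' ∧ ∀ A, NPg (γ i) A → ¬ IsP (chi A) L') ∧
        ∀ i j, (i ≤ j → (∀ n, γ i n ≤ γ j n) ∧ ∀ A, NPg (γ i) A → NPg (γ j) A) ∧
          (¬ i ≤ j → ∀ A, NPg (γ j) A → ¬ IsP (chi A) (L i))) ∧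
    (∀ f g : ℕ → ℕ, Nice f → Nice g → (∀ n, f n ≤ g n) → (∃ L, NPg g L ∧ ¬ NPg f L) →
      ∀ (I : Type) [Countable I] [PartialOrder I],
        ∃ (γ : I → ℕ → ℕ) (L : I → Set (List Bool)),
          (∀ i, Nice (γ i) ∧ NPg (γ i) (L i) ∧ ∀ n, γ i n = f n ∨ γ i n = g n) ∧
          ∀ i j, (i ≤ j → (∀ n, γ i n ≤ γ j n) ∧ ∀ A, NPg (γ i) A → NPg (γ j) A) ∧
            (¬ i ≤ j → ¬ NPg (γ j) (L i))) ∧
    (∀ a : ℕ, (∀ L, NPg (fun n => n ^ (a + 1)) L → NPg (fun n => n ^ a) L) →
      ∀ L, InNP L → NPg (fun n => n ^ a) L) :=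
  ⟨p_np, fun _ _ hf hg hfg hne I _ _ => guess_interval hf hg hfg hne I, fun _ h => chain h⟩

end Pool.Agent.Results.MP_cd574d_lc.CountableOrders
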