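import Pool.Agent.L0h58.HY.Fun

/-!
# The hierarchy of bounded nondeterminism for an explicit function

For Boolean branching programs (nonuniform computations with random access to the input) of linear,
even of slightly superlinear time, and sublinear space more guesses help, in a nearly optimal form:
there are explicit functions `hardFunction N g` of `N` bits, which are computed with `g` guessed bits
and `2 ^ (27 g)` memory states in one pass over the input, but programs of time `k N` with at most
`2 ^ (N / (2 ^ (A k ^ 3) h))` nodes, where `N ≤ 2 ^ g` and `g` and `h log N` are at most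
`N / 2 ^ (A k ^ 3)`, need at least `g - log (N / g + 1) - 1` guessed bits for `hardFunction N g` if
`h ≥ g`, and at least `h` guessed bits for its complement in any case. Here `k` may depend on `N`;
`2 ^ (A k ^ 3)` is at most `N ^ ε` for `k` up to a small multiple of `(log N) ^ (1 / 3)`. With `h = g` the
size `2 ^ (N / (2 ^ (A k ^ 3) g))` is larger than `2 ^ (30 g)` for `30 g ^ 2 ≤ N / 2 ^ (A k ^ 3)`, and
then, for fixed `k`, the bound is optimal up to `log g + O (1)` guesses, because
`log (N / g ^ 2) - O (1)` of the `g` guesses can be replaced by memory.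

The function asks whether the value of a quadratic form in polynomials, whose coefficients are
linear forms in the blocks `x(i)` of the input, is zero at one of the `2 ^ g` points
`∑ u_j θ ^ j`, `j < g`, of the field `𝔽₂(θ)` with `4 ^ g` elements. The coefficients of the linear forms
are given by the other blocks of the input: the matrix of the linear forms is a block Hankel matrix,
and for a suitable choice of its entries every large set of its rows has almost full rank. So the
function is a disjunction of `2 ^ g` rare, pairwise almost independent events. The inputs are divided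
into classes by the states of the program at the ends of `O (h)` segments of the computation, by the
reading patterns of `O (h)` sampled variables (which determine a labelling of the segments), and by
the sets of the variables which are only read in segments of one of two kinds. The classes are
combinatorial rectangles, almost all inputs are in large ones, and a large rectangle contains at
least `(1 - N / (g 2 ^ g))` times the expected number of ones.
-/

set_option autoImplicit false

namespace Pool.Agent.Results.MP_cd574d_lc.LinearTimeHierarchy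

/-! ### The function -/

section function

open Polynomial

/-- The bit `j` of the input `y`, as an element `0` or `1` of `𝔽₂[X]`. -/
noncomputable def bit {N : ℕ} (y : Fin N → Bool) (j : ℕ) : (ZMod 2)[X] :=
  if h : j < N then (if y ⟨j, h⟩ = true then 1 else 0) else 0

/-- The polynomial of degree less than `2 g` which is given by the block `m` of `2 g` bits; the
blocks come after the first `n` bits. -/
noncomputable def block {N : ℕ} (y : Fin N → Bool) (n g m : ℕ) : (ZMod 2)[X] :=
  ∑ j ∈ Finset.range (2 * g), bit y (n + m * (2 * g) + j) * X ^ j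

/-- `P(a) = ∑ yᵢ aⁱ`, `i < n`, where the `yᵢ` are the first `n` bits. -/
noncomputable def shiftValue {N : ℕ} (y : Fin N → Bool) (n : ℕ) (a : (ZMod 2)[X]) : (ZMod 2)[X] :=
  ∑ i ∈ Finset.range n, bit y i * a ^ i

/-- `W_c(0) = 0`, `W_c(i + 1) = a W_c(i) + t_c(i) + s_c(i) P(a)`, where `t_c(i)` and `s_c(i)` are
the blocks `13 i + c` and `13 i + 6 + c`. -/
noncomputable def window {N : ℕ} (y : Fin N → Bool) (n g : ℕ) (a : (ZMod 2)[X]) (c : ℕ) :
    ℕ → (ZMod 2)[X]
  | 0 => 0
  | i + 1 => a * window y n g a c i + block y n g (13 * i + c) +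
      block y n g (13 * i + (6 + c)) * shiftValue y n a

/-- `U_c = ∑ x(i) W_c(i + 1)`, `i < n`, where `x(i)` is the block `13 i + 12`. -/
noncomputable def windowSum {N : ℕ} (y : Fin N → Bool) (n g : ℕ) (a : (ZMod 2)[X]) (c : ℕ) :
    (ZMod 2)[X] :=
  ∑ i ∈ Finset.range n, block y n g (13 * i + 12) * window y n g a c (i + 1)

/-- The polynomial over `𝔽₂` whose coefficients are the binary digits of `m`. -/
noncomputable def binaryPoly (m : ℕ) : (ZMod 2)[X] :=
  ∑ i ∈ Finset.range m, if m.testBit i = true then X ^ i else 0

/-- The first irreducible polynomial of degree `d`. -/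
noncomputable def firstIrreducible (d : ℕ) : (ZMod 2)[X] :=
  binaryPoly (sInf {m | Irreducible (binaryPoly m) ∧ (binaryPoly m).natDegree = d})

open Classical in
/-- The explicit function of `N` bits: with `n = ⌊N / (26 g + 1)⌋`, is `U₀ U₃ + U₁ U₄ + U₂ U₅`
divisible by the first irreducible polynomial of degree `2 g` for some polynomial `a` of degree less
than `g`? -/
noncomputable def hardFunction (N g : ℕ) (y : Fin N → Bool) : Bool :=
  decide (∃ a : (ZMod 2)[X], a.degree < g ∧ firstIrreducible (2 * g) ∣
    windowSum y (N / (26 * g + 1)) g a 0 * windowSum y (N / (26 * g + 1)) g a 3 +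
    windowSum y (N / (26 * g + 1)) g a 1 * windowSum y (N / (26 * g + 1)) g a 4 +
    windowSum y (N / (26 * g + 1)) g a 2 * windowSum y (N / (26 * g + 1)) g a 5)

theorem bit_eq {N : ℕ} (y : Fin N → Bool) (j : ℕ) :
    (Pool.Agent.L0h58.HX.bv (Pool.Agent.L0h58.HX.bit y j) : (ZMod 2)[X]) = bit y j := by
  unfold bit Pool.Agent.L0h58.HX.bit Pool.Agent.L0h58.HX.bv
  by_cases h : j < N
  · rw [dif_pos h, dif_pos h]
  · rw [dif_neg h, dif_neg h]
    rfl

theorem block_eq {N : ℕ} (y : Fin N → Bool) (n g i τ : ℕ) :
    Pool.Agent.L0h58.HY.ch (X : (ZMod 2)[X]) n (2 * g) (Pool.Agent.L0h58.HX.bit y) i τ =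
      block y n g (13 * i + τ) := by
  unfold Pool.Agent.L0h58.HY.ch block
  exact Finset.sum_congr rfl fun j _ => by rw [bit_eq]

theorem window_eq {N : ℕ} (y : Fin N → Bool) (n g : ℕ) (a : (ZMod 2)[X]) (c i : ℕ) :
    Pool.Agent.L0h58.HY.wn (X : (ZMod 2)[X]) a n (2 * g) (Pool.Agent.L0h58.HX.bit y) c i =
      window y n g a c i := by
  have hP : Pool.Agent.L0h58.HY.pa a n (Pool.Agent.L0h58.HX.bit y) = shiftValue y n a := by
    unfold Pool.Agent.L0h58.HY.pa shiftValue
    exact Finset.sum_congr rfl fun i _ => by rw [bit_eq]
  induction i with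
  | zero => rfl
  | succ i ih =>
    unfold window Pool.Agent.L0h58.HY.wn
    rw [ih, hP, block_eq, block_eq]

theorem hard_eq (N g : ℕ) : Pool.Agent.L0h58.HY.fx N g = hardFunction N g := by
  classical
  funext y
  have hU : ∀ (a : (ZMod 2)[X]) (c n : ℕ), Pool.Agent.L0h58.HY.ac (X : (ZMod 2)[X]) a n (2 * g)
      (Pool.Agent.L0h58.HX.bit y) c n = windowSum y n g a c := by
    intro a c n
    rw [Pool.Agent.L0h58.HY.ac_sum]
    unfold windowSum
    exact Finset.sum_congr rfl fun i _ => by rw [block_eq, window_eq]
  have h1 := Pool.Agent.L0h58.HY.exists_degree_lt (g := g) fun a => firstIrreducible (2 * g) ∣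
    windowSum y (N / (26 * g + 1)) g a 0 * windowSum y (N / (26 * g + 1)) g a 3 +
    windowSum y (N / (26 * g + 1)) g a 1 * windowSum y (N / (26 * g + 1)) g a 4 +
    windowSum y (N / (26 * g + 1)) g a 2 * windowSum y (N / (26 * g + 1)) g a 5
  unfold Pool.Agent.L0h58.HY.fx hardFunction Pool.Agent.L0h58.HY.vq
  simp only [hU]
  exact decide_eq_decide.2 h1

end function

/-- A nondeterministic branching program for inputs of `n` bits with the set `V` of nodes; cycles are
allowed. A node `v` with `out v = none` reads the variable `var v`; if its value is `b`, the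
possible next nodes are `next v b false` and `next v b true`. A node `v` with `out v = some b` is a
sink with the answer `b`. -/
structure NondetProgram (n : ℕ) (V : Type) where
  start : V
  var : V → Fin n
  next : V → Bool → Bool → V
  out : V → Option Bool

/-- One step of the computation with the guessed bit `c`. -/
def NondetProgram.step {n : ℕ} {V : Type} (P : NondetProgram n V) (x : Fin n → Bool) (v : V)
    (c : Bool) : V :=
  if (P.out v).isSome then v else P.next v (x (P.var v)) c

/-- The node after `t` steps of the computation with the guessed bits `γ`. -/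
def NondetProgram.run {n : ℕ} {V : Type} (P : NondetProgram n V) (x : Fin n → Bool)
    (γ : ℕ → Bool) : ℕ → V
  | 0 => P.start
  | t + 1 => P.step x (P.run x γ t) (γ t)

/-- The step at the time `t` is nondeterministic: there is a genuine choice between two nodes. -/
def NondetProgram.Chooses {n : ℕ} {V : Type} (P : NondetProgram n V) (x : Fin n → Bool)
    (γ : ℕ → Bool) (t : ℕ) : Prop :=
  P.step x (P.run x γ t) false ≠ P.step x (P.run x γ t) true

/-- The program computes `f` in time `T` with `g` guesses: `f x = true` if and only if the input `x` has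
an accepting computation of length at most `T` with at most `g` nondeterministic steps. -/
def NondetProgram.Computes {n : ℕ} {V : Type} (P : NondetProgram n V) (T g : ℕ)
    (f : (Fin n → Bool) → Bool) : Prop :=
  ∀ x, f x = true ↔ ∃ γ : ℕ → Bool, P.out (P.run x γ T) = some true ∧
    {t : ℕ | t < T ∧ P.Chooses x γ t}.ncard ≤ g

/-- A nondeterministic one-pass program with the set `V` of memory states: it guesses `g` bits, and
then it reads the input once, from left to right. -/
structure OnePassProgram (n g : ℕ) (V : Type) where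
  start : (Fin g → Bool) → V
  next : Fin n → V → Bool → V
  acc : V → Prop

/-- The one-pass program computes `f`. -/
def OnePassProgram.Computes {n g : ℕ} {V : Type} (P : OnePassProgram n g V)
    (f : (Fin n → Bool) → Bool) : Prop :=
  ∀ x, f x = true ↔ ∃ ω : Fin g → Bool,
    P.acc ((List.finRange n).foldl (fun v i => P.next i v (x i)) (P.start ω))

/-- **The hierarchy of bounded nondeterminism in slightly superlinear time and sublinear space.** -/
theorem result :
    -- one pass over the input, `g` guesses; or `g - j` guesses and more memory states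
    (∀ n g j : ℕ, 1 ≤ g → j ≤ g →
      ∃ (V : Type) (_ : Finite V) (P : OnePassProgram n (g - j) V),
        Nat.card V ≤ 2 ^ (27 * g * 2 ^ j) ∧ P.Computes (hardFunction n g)) ∧
    -- the same in terms of nondeterministic branching programs
    (∀ n g : ℕ, 1 ≤ n → 1 ≤ g → n ≤ 2 ^ g →
      ∃ (V : Type) (_ : Finite V) (P : NondetProgram n V),
        Nat.card V ≤ 2 ^ (30 * g) ∧ P.Computes (n + g + 1) g (hardFunction n g)) ∧
    ∃ A : ℕ, ∀ k n g h T : ℕ, 1 ≤ k → 1 ≤ g → 1 ≤ h → n ≤ 2 ^ g →
      (2 : ℝ) ^ (A * k ^ 3) * g ≤ n → (2 : ℝ) ^ (A * k ^ 3) * (h * Nat.log 2 n) ≤ n → T ≤ k * n →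
        ∀ (V : Type) (_ : Finite V) (P : NondetProgram n V) (g' : ℕ),
          (Nat.card V : ℝ) ≤ (2 : ℝ) ^ ((n : ℝ) / (2 ^ (A * k ^ 3) * h)) →
            -- fewer guesses do not suffice
            (P.Computes T g' (hardFunction n g) →
              (1 / 2 : ℝ) ^ g' ≤ n / g * (1 / 2) ^ g + (1 / 2) ^ h) ∧
            -- the complement needs `h` guesses
            (P.Computes T g' (fun x => !hardFunction n g x) → h ≤ g') := by
  classical
  obtain ⟨A, hA⟩ := Pool.Agent.L0h58.HY.family6
  -- the two notions of acceptance
  have hacc : ∀ {n : ℕ} {V : Type} (P : NondetProgram n V) (T g : ℕ) (x : Fin n → Bool),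
      (∃ γ : ℕ → Bool, P.out (P.run x γ T) = some true ∧
        {t : ℕ | t < T ∧ P.Chooses x γ t}.ncard ≤ g) ↔
      (Pool.Agent.L0h58.HN.NBP.mk P.start P.var P.next P.out).Accepts T g x := by
    intro n V P T g x
    have hrun : ∀ (γ : ℕ → Bool) (t : ℕ),
        (Pool.Agent.L0h58.HN.NBP.mk P.start P.var P.next P.out).run x γ t = P.run x γ t := by
      intro γ t
      induction t with
      | zero => rfl
      | succ t ih =>
        show (Pool.Agent.L0h58.HN.NBP.mk P.start P.var P.next P.out).step x _ _ = P.step x _ _
        rw [ih]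
        rfl
    have hset : ∀ γ : ℕ → Bool, {t : ℕ | t < T ∧ P.Chooses x γ t} =
        (((Finset.range T).filter fun t =>
          (Pool.Agent.L0h58.HN.NBP.mk P.start P.var P.next P.out).step x
            ((Pool.Agent.L0h58.HN.NBP.mk P.start P.var P.next P.out).run x γ t) false ≠
          (Pool.Agent.L0h58.HN.NBP.mk P.start P.var P.next P.out).step x
            ((Pool.Agent.L0h58.HN.NBP.mk P.start P.var P.next P.out).run x γ t) true :
              Finset ℕ) : Set ℕ) := by
      intro γ
      ext t
      rw [Finset.coe_filter, Set.mem_ofPred_eq, Set.mem_ofPred_eq, Finset.mem_range, hrun]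
      exact Iff.rfl
    unfold Pool.Agent.L0h58.HN.NBP.Accepts
    constructor
    · rintro ⟨γ, h1, h2⟩
      refine ⟨γ, by rw [hrun]; exact h1, ?_⟩
      rw [hset, Set.ncard_coe_finset] at h2
      exact h2
    · rintro ⟨γ, h1, h2⟩
      refine ⟨γ, by rw [← hrun]; exact h1, ?_⟩
      rw [hset, Set.ncard_coe_finset]
      exact h2
  refine ⟨fun n g j hg hj => ?_, fun n g hn hg1 hg => ?_, A,
    fun k n g h T hk hg hh hng h1 h2 hT V hV P g' hcard => ?_⟩
  · obtain ⟨V, hV, start, next, acc, hcard, hdec⟩ :=
      Pool.Agent.L0h58.HN.nonP_fewer (Pool.Agent.L0h58.HY.easy5 n g hg) hj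
    rw [hard_eq] at hdec
    exact ⟨V, hV, ⟨start, next, acc⟩, by rw [pow_mul]; exact hcard, hdec⟩
  · obtain ⟨V, hV, P, hcard, hdec⟩ :=
      Pool.Agent.L0h13.HN.t_SIM n g (2 ^ (27 * g)) (Pool.Agent.L0h58.HY.fx n g) hn
        (Pool.Agent.L0h58.HY.easy5 n g hg1)
    rw [hard_eq] at hdec
    refine ⟨V, hV, ⟨P.start, P.var, P.next, P.out⟩,
      hcard.trans (Pool.Agent.L0h58.HY.nodes_le3 hg1 hg), fun x => ?_⟩
    rw [hdec x]
    exact (hacc (NondetProgram.mk P.start P.var P.next P.out) (n + g + 1) g x).symm
  · obtain ⟨W, hW, hWh, hs1, -, hB⟩ := hA k n g h T hk hg hh hng h1 h2 hT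
    rw [hard_eq] at hB
    refine ⟨fun hP => ?_, fun hP => ?_⟩
    · refine Pool.Agent.L0h58.HM.nondet2 (T := T) (B := Nat.card V) (f := hardFunction n g) hW hh
        hWh hB ⟨V, hV, ⟨P.start, P.var, P.next, P.out⟩, le_rfl, fun x => ?_⟩ (hcard.trans hs1)
      rw [hP x]
      exact hacc P T g' x
    · refine Pool.Agent.L0h58.HM.nondet3 (T := T) (B := Nat.card V) (f := hardFunction n g) hW hh
        hWh hB ⟨V, hV, ⟨P.start, P.var, P.next, P.out⟩, le_rfl, fun x => ?_⟩ (hcard.trans hs1)
      exact (hP x).trans (hacc P T g' x)

end Pool.Agent.Results.MP_cd574d_lc.LinearTimeHierarchy
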