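import Pool.Agent.L0h33.AV.Fin

/-!
# One bit of advice and slightly more than a logarithmic number of guesses, without a collapse

If every language in `NP` can be decided in polynomial time with `O (log n)` bits of advice, which
is the same as with `O (log n)` guessed bits and `O (log n)` bits of advice, then `P = NP` (Karp and
Lipton), and this holds relative to every oracle. We show that there is no such theorem as soon as
the number of guessed bits is larger.

There is an oracle `A` such that every language in `PSPACE` relative to `A` is accepted by a
nondeterministic polynomial-time machine which guesses `h (n)` bits and gets one bit of advice for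
every input length, for every bound `h` (computable in polynomial time from `n` in unary) with
`h (n) / log n → ∞`. Nevertheless all the classes of the hierarchy of bounded nondeterminism are
different relative to `A`: `g (n)` guessed bits can be replaced by `g' (n)` guessed bits if and only
if `g (n) ≤ g' (n) + O (log n)`; in particular `P = NP_{log n} ≠ NP_n ≠ NP_{n²} ≠ ...`.

Ideas. At certain lengths `n` a string `y` is hidden, and it is marked or not. The problem complete
for polynomial space is coded for both cases, behind keys whose length is a large multiple of
`log n`; the bit of advice says which of the two codes is right. A computation finds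
a key only if it guesses it, up to a polynomial factor. So the computations of a machine with
`g (n)` guessed bits ask for at most `2 ^ g (n)` times a polynomial number of the strings `y`,
although the code for the wrong case contains all information about `y`.
-/

set_option autoImplicit false

namespace Pool.Agent.Results.MP_cd574d_lc.OneBitOfAdvice

open Pool.Agent.L0h33.LD Pool.Agent.L0h33.RR Pool.Agent.L0h33.AV
open Pool.Agent.H620R2.Gauge (Oracle IsPSPACE)

theorem result : ∃ A : Oracle,
    (∀ L, IsPSPACE A L → ∀ h, Nice h →
      (∀ c, ∀ᶠ n in Filter.atTop, c * Nat.log 2 (n + 2) ≤ h n) → GAdv A h L) ∧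
    (∀ g, Nice g → ∀ L, GA A g L → IsPSPACE A L) ∧
    (∀ g, Nice g → ∃ L : Set (List Bool), (∀ x ∈ L, ∃ n, x = List.replicate n true) ∧ GA A g L ∧
      ∀ g', Nice g' → (GA A g' L ↔ ∃ c, ∀ n, g n ≤ g' n + c * Nat.log 2 (n + 2))) ∧
    (∀ g g', Nice g → Nice g' → ((∀ L, GA A g L → GA A g' L) ↔
      ∃ c, ∀ n, g n ≤ g' n + c * Nat.log 2 (n + 2))) :=
  main

end Pool.Agent.Results.MP_cd574d_lc.OneBitOfAdvice
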