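import Pool.Agent.L0h33.RI.Main

/-!
# Immune and simple sets with few guessed bits, relative to a random oracle

`GA A g` is the class of the languages with a nondeterministic polynomial-time machine with oracle
`A` that guesses `g (n)` bits; the union of these classes for the polynomials `g` is `NP` relative
to `A`.

There is an infinite tally set `D` in `P` such that for almost every oracle `A` and for every bound
`h` (computable in polynomial time from `n` in unary) with `h (n) / log n → ∞` there is `L ⊆ D`,
infinite and with infinite `D \ L`, which is accepted with `h (n)` guessed bits, and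

* no infinite subset of `L` is accepted with `g (n)` guessed bits, for every `g` such that
  `(h (n) - g (n)) / log n → ∞`,
* no infinite subset of `L` is in `coNP` relative to `A`,
* no infinite subset of `D \ L` is in `NP` relative to `A`. So the set `L ∪ Dᶜ`, which is also
  accepted with `h (n)` guessed bits, is simple for `NP`.

In particular, relative to a random oracle all the classes of the hierarchy with `n, n², n³, ...`
guessed bits are strongly separated: `NP_{n^(k+1)}` contains a tally set which is immune for
`NP_{n^k}`; and every class with more than `O(log n)` guessed bits contains tally sets which are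
immune for `coNP`, and is strongly separated from its complements by `NP`-immune sets.

Ideas. `L` is the set of the numbers `n` in the range of the tower function for which a string of
length `h (n)` is marked by the oracle. A machine which accepts only if a string is marked accepts
with probability at most four times its probability of error, plus a small term: conditioned on no
marked string, remove the mark at the expense of the places it asks. Since the lengths are sparse,
the events that the first error occurs at a given length are disjoint, and the probabilities of
acceptance before an error are summable.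
-/

set_option autoImplicit false

namespace Pool.Agent.Results.MP_cd574d_lc.RandomOracleImmunity

open Pool.Agent.NPC Pool.Agent.L0h33.LD Pool.Agent.L0h33.RR MeasureTheory
open Pool.Agent.H628R3.RO (randomOracle)

theorem result : ∃ D : Set (List Bool), InP D ∧ D.Infinite ∧
    (∀ x ∈ D, ∃ n, x = List.replicate n true) ∧
    ∀ᵐ A ∂randomOracle, ∀ h, Nice h → (∀ c, ∀ᶠ n in Filter.atTop, c * Nat.log 2 (n + 2) ≤ h n) →
      ∃ L ⊆ D, L.Infinite ∧ (D \ L).Infinite ∧ GA A h L ∧ GA A h (L ∪ Dᶜ) ∧
        (∀ g, Nice g → (∀ c, ∀ᶠ n in Filter.atTop, g n + c * Nat.log 2 (n + 2) ≤ h n) →
          ∀ L' ⊆ L, GA A g L' → L'.Finite) ∧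
        (∀ p : Polynomial ℕ, ∀ L' ⊆ L, GA A (fun n => p.eval n) L'ᶜ → L'.Finite) ∧
        (∀ p : Polynomial ℕ, ∀ L' ⊆ D \ L, GA A (fun n => p.eval n) L' → L'.Finite) := by
  refine ⟨Pool.Agent.L0h33.RI.Dset, Pool.Agent.L0h33.RI.inP_Dset,
    Pool.Agent.L0h33.RI.infinite_Dset, ?_, ?_⟩
  · rintro x ⟨k, rfl⟩
    exact ⟨_, rfl⟩
  · filter_upwards [Pool.Agent.L0h33.RI.main] with A hA h hh hb
    exact hA h hh fun c => (hb c).mono fun n hn => by simpa using hn

end Pool.Agent.Results.MP_cd574d_lc.RandomOracleImmunity
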